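import Pool.Agent.Y7.LN.Stm

/-!
Project LN: the energy of the modes `≥ n` during the transfer from `n + 1` to `n`.
-/

open Set Filter Topology MeasureTheory Metric

set_option autoImplicit false

namespace Pool.Agent.Y907.LN

open Pool.Agent.Y5 (Pr Pr_cont Pr_deriv Pr_mono Pr_zero mono_of)
open Pool.Agent.Y6.N (src ph)
open Pool.Agent.Y303.EJ
open Pool.Agent.Y7.LN

variable {η : ℝ} {lm L C ℓ : ℕ → ℝ} {B : ℕ → ℕ → ℝ} {N : ℕ} {T : ℝ} {x R : ℕ → ℝ → ℝ}

theorem xle (h : Cb η lm L C ℓ B N T x R) (n : ℕ) {t : ℝ} (ht : t ∈ Ico 0 T) :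
    |x n t| ≤ R n t := by
  apply abs_le_of_sq_le_sq _ (h.R0 n t ht)
  have h1 := h.Rsq n t ht
  nlinarith [sq_nonneg (R (n + 1) t)]

theorem Rstep (h : Cb η lm L C ℓ B N T x R) (n : ℕ) {t : ℝ} (ht : t ∈ Ico 0 T) :
    R (n + 1) t ≤ R n t := by
  apply le_of_sq_le_sq _ (h.R0 n t ht)
  have h1 := h.Rsq n t ht
  nlinarith [sq_nonneg (x n t)]

theorem Rle1 (h : Cb η lm L C ℓ B N T x R) (n : ℕ) {t : ℝ} (ht : t ∈ Ico 0 T) : R n t ≤ 1 := by
  induction n with
  | zero => exact h.R1 t ht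
  | succ n ih => exact (Rstep h n ht).trans ih

theorem x2 (h : Cb η lm L C ℓ B N T x R) (n : ℕ) {t : ℝ} (ht : t ∈ Ico 0 T) :
    x n t ^ 2 ≤ R n t ^ 2 := by
  have h1 := h.Rsq n t ht
  nlinarith [sq_nonneg (R (n + 1) t)]

theorem R2 (h : Cb η lm L C ℓ B N T x R) (n : ℕ) {t : ℝ} (ht : t ∈ Ico 0 T) : R n t ^ 2 ≤ 1 := by
  have h1 := Rle1 h n ht
  have h2 := h.R0 n t ht
  nlinarith

theorem Sg_abs (h : Cb η lm L C ℓ B N T x R) (m : ℕ) {t : ℝ} (ht : t ∈ Ico 0 T) :
    |Sg L x m t| ≤ ∑ i ∈ Finset.range m, L i := by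
  unfold Sg
  refine (Finset.abs_sum_le_sum_abs _ _).trans (Finset.sum_le_sum fun i _ => ?_)
  have hL := h.nm.L1 i
  rw [abs_mul, abs_of_pos (by linarith)]
  have h1 := (xle h i ht).trans (Rle1 h i ht)
  nlinarith

/-- the constant part of the decay of the energy -/
theorem kb (h : Cb η lm L C ℓ B N T x R) (n : ℕ) : ∃ K : ℝ, 0 ≤ K ∧
    (∀ s ∈ Ico 0 T, 2 * |Sg L x n s| + 2 * |src L C x n s| + 2 * ℓ n + 2 * e0 lm +
      4 * ph lm n ≤ K) ∧ K * wd lm L n ≤ dl η (n + 1) ^ 2 / 200 := by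
  have he0 : 0 < e0 lm := by unfold e0; positivity
  have hph : ∀ n, 0 < ph lm n := fun n => Real.exp_pos _
  have hlm0 : (10 : ℝ) ^ 30 ≤ lm 0 := h.nm.lm1 0
  have hd0 := h.nm.d0
  have hd1 := h.nm.d1
  have hds := h.nm.ds
  rcases n with _ | k
  · -- n = 0
    have hℓ := h.sq.ℓ_nonneg 0
    have hL0 := h.nm.L1 0
    refine ⟨2 * ℓ 0 + 4 * e0 lm, by positivity, ?_, ?_⟩
    · intro s hs
      have e1 : Sg L x 0 s = 0 := by unfold Sg; simp
      have e2 : src L C x 0 s = 0 := by unfold src; simp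
      rw [e1, e2, abs_zero]
      have h2 : ph lm 0 ≤ e0 lm / 2 := by
        unfold ph e0
        have : Real.exp (-lm 0) ≤ Real.exp (-(lm 0 / 2)) := Real.exp_le_exp.2 (by linarith)
        linarith
      linarith
    · have hw : wd lm L 0 ≤ lm 0 / L 0 := by
        unfold wd
        apply div_le_div_of_nonneg_right _ (by linarith)
        rw [Real.sqrt_le_left (by linarith)]
        nlinarith
      have hw0 := h.wn.w0 0
      have h1 : ℓ 0 * wd lm L 0 ≤ dl η 0 ^ 4 / 10 ^ 6 := by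
        calc ℓ 0 * wd lm L 0 ≤ ℓ 0 * (lm 0 / L 0) := mul_le_mul_of_nonneg_left hw hℓ
          _ = ℓ 0 * lm 0 / L 0 := by ring
          _ ≤ dl η 0 ^ 4 / 10 ^ 6 := by
              rw [div_le_div_iff₀ (by linarith) (by norm_num)]
              linarith [h.sq.ℓ_zero]
      have h2 : e0 lm * wd lm L 0 ≤ dl η 0 ^ 2 / 10 ^ 6 := by
        have hw1 : wd lm L 0 ≤ lm 0 := hw.trans (div_le_self (by linarith) hL0)
        set q := Q η lm 0 with hq
        have hq0 : 0 < q := Real.exp_pos _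
        have hQe := h.nm.Qexp 0 3 (-(1 / 2)) (-(1 / 4)) (by
          have := hd1 0
          push_cast
          linarith)
        rw [← hq] at hQe
        have hlq := h.nm.Qlm 0 0 (by norm_num)
        have hdq := h.nm.Qd 0 0 (by norm_num)
        rw [← hq] at hlq hdq
        have hd : 1 ≤ dl η 0 * q := by
          rw [div_le_iff₀ (hd0 0)] at hdq
          linarith
        have hsm : Real.exp (-(1 / 4) * lm 0) ≤ 1 / 10 ^ 7 := by
          have h3 : Real.exp (-(1 / 4) * lm 0) = (Real.exp (1 / 4 * lm 0))⁻¹ := by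
            rw [← Real.exp_neg]
            congr 1
            ring
          have h4 := Real.add_one_le_exp (1 / 4 * lm 0)
          rw [h3, show (1 : ℝ) / 10 ^ 7 = (10 ^ 7)⁻¹ by norm_num]
          apply inv_anti₀ (by norm_num)
          linarith
        have he : e0 lm = 2 * Real.exp (-(1 / 2) * lm 0) := by
          unfold e0
          congr 2
          ring
        have h5 : e0 lm * lm 0 ≤ dl η 0 ^ 2 * (2 * (q ^ 3 * Real.exp (-(1 / 2) * lm 0))) := by
          rw [he]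
          have h6 : (0 : ℝ) < Real.exp (-(1 / 2) * lm 0) := Real.exp_pos _
          have h7 : lm 0 ≤ (dl η 0 * q) ^ 2 * q := by
            have : 1 ≤ (dl η 0 * q) ^ 2 := one_le_pow₀ hd
            nlinarith
          calc 2 * Real.exp (-(1 / 2) * lm 0) * lm 0 ≤
                2 * Real.exp (-(1 / 2) * lm 0) * ((dl η 0 * q) ^ 2 * q) :=
                mul_le_mul_of_nonneg_left h7 (by positivity)
            _ = _ := by ring
        have h8 : 0 < dl η 0 ^ 2 := pow_pos (hd0 0) 2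
        calc e0 lm * wd lm L 0 ≤ e0 lm * lm 0 := mul_le_mul_of_nonneg_left hw1 he0.le
          _ ≤ dl η 0 ^ 2 * (2 * (q ^ 3 * Real.exp (-(1 / 2) * lm 0))) := h5
          _ ≤ dl η 0 ^ 2 * (2 * (1 / 10 ^ 7)) := by
              apply mul_le_mul_of_nonneg_left _ h8.le
              linarith
          _ ≤ dl η 0 ^ 2 / 10 ^ 6 := by nlinarith
      have h3 : dl η 0 ^ 4 ≤ dl η 0 ^ 2 / 10 ^ 4 := by
        have h4 : dl η 0 ^ 2 ≤ 1 / 10 ^ 4 := by
          have := hd1 0
          have := hd0 0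
          nlinarith
        have h5 : 0 ≤ dl η 0 ^ 2 := sq_nonneg _
        nlinarith
      have h4 : dl η (0 + 1) ^ 2 = dl η 0 ^ 2 / 16 := by rw [hds 0]; ring
      have h5 : 0 ≤ dl η 0 ^ 2 := sq_nonneg _
      rw [h4]
      nlinarith
  · -- n = k + 1
    have hLk := h.nm.L1 k
    refine ⟨13 * L k, by linarith, ?_, ?_⟩
    · intro s hs
      have h1 := (Sg_abs h (k + 1) hs).trans (h.nm.Lsum k)
      have h2 : |src L C x (k + 1) s| ≤ L k := by
        unfold src
        rw [if_neg (by omega), Nat.add_sub_cancel]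
        have hC0 := h.nm.C0 k
        have hC1 : C k ≤ 1 := (h.nm.C1 k).trans (Real.exp_le_one_iff.2 (by
          have := h.nm.lm1 k
          linarith))
        have h3 := (x2 h k hs).trans (R2 h k hs)
        have h4 : 0 ≤ x k s ^ 2 := sq_nonneg _
        rw [abs_of_nonneg (by positivity)]
        calc L k * C k * x k s ^ 2 ≤ L k * 1 * 1 := by
              apply mul_le_mul (mul_le_mul_of_nonneg_left hC1 (by linarith)) h3 h4 (by linarith)
          _ = L k := by ring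
      have h3 : ℓ (k + 1) ≤ L k := by
        have h4 := h.sq.ℓ_succ k
        have h5 : dl η (k + 1) ^ 4 ≤ 1 := pow_le_one₀ (hd0 _).le (by linarith [hd1 (k + 1)])
        nlinarith
      have h4 : e0 lm ≤ 1 := by
        have h5 := h.nm.e1
        have := h.nm.L1 0
        nlinarith
      have h5 : ph lm (k + 1) ≤ 1 := Real.exp_le_one_iff.2 (by
        have := h.nm.lm1 (k + 1)
        linarith)
      linarith
    · have h1 := h.wn.wL k k le_rfl
      have h2 := h.wn.sq4 (k + 1)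
      have h3 : dl η (k + 1 + 1) ^ 2 = dl η (k + 1) ^ 2 / 16 := by rw [hds (k + 1)]; ring
      have h4 : 0 ≤ dl η (k + 1) ^ 2 := sq_nonneg _
      rw [h3]
      calc 13 * L k * wd lm L (k + 1) = 13 * (L k * wd lm L (k + 1)) := by ring
        _ ≤ 13 * (dl η (k + 1) ^ 2 / 10 ^ 15) := by linarith
        _ ≤ dl η (k + 1) ^ 2 / 16 / 200 := by linarith

theorem dsum (h : Num η lm L C ℓ) (n : ℕ) : ∀ N, n ≤ N →
    ∑ j ∈ Finset.Ico n N, dl η (j + 1) ^ 4 ≤ 2 * dl η (n + 1) ^ 4 - 2 * dl η (N + 1) ^ 4 := by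
  intro N hN
  induction N, hN using Nat.le_induction with
  | base => simp
  | succ N hN ih =>
    rw [Finset.sum_Ico_succ_top hN]
    have h1 : dl η (N + 1 + 1) ^ 4 = dl η (N + 1) ^ 4 / 256 := by rw [h.ds (N + 1)]; ring
    have h2 : 0 ≤ dl η (N + 1) ^ 4 := pow_nonneg (h.d0 _).le _
    rw [h1]
    linarith

theorem t_ENB : Pool.Agent.Y7.LN.S_ENB := by
  intro η lm L C ℓ B N T x R h n t hn ht ha hb hPr
  set a := sN lm L N (n + 1) with hadef
  have ha0 : 0 ≤ a := by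
    rw [hadef]
    unfold sN
    exact Finset.sum_nonneg fun m _ => (h.wn.w0 m).le
  have hba : t - a ≤ wd lm L n := by
    have : sN lm L N n = wd lm L n + a := by
      rw [hadef]
      unfold sN
      rw [Finset.sum_eq_sum_Ico_succ_bot (by omega)]
    linarith
  obtain ⟨K, hK0, hK, hKw⟩ := kb h n
  have hL : ∀ j, 0 < L j := fun j => lt_of_lt_of_le one_pos (h.nm.L1 j)
  have hsub : ∀ s ∈ Icc a t, s ∈ Ico 0 T := fun s hs => ⟨ha0.trans hs.1, hs.2.trans_lt ht.2⟩
  have hsubo : ∀ s ∈ Ioo a t, s ∈ Ioo 0 T := fun s hs => ⟨ha0.trans_lt hs.1, hs.2.trans ht.2⟩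
  choose! D hD using h.dR n
  have hcj : ∀ j, ContinuousOn (fun s => L j * R (j + 1) s ^ 2) (Ico 0 T) := fun j =>
    continuousOn_const.mul ((h.cR (j + 1)).pow 2)
  -- the monotone function
  have hmono := mono_of (a := a) (b := t)
    (f := fun s => R n s ^ 2 + K * s +
      2 * ∑ j ∈ Finset.Ico n N, (ℓ (j + 1) / L j) * Pr (fun s => L j * R (j + 1) s ^ 2) s)
    (f' := fun s => D s + K * 1 +
      2 * ∑ j ∈ Finset.Ico n N, (ℓ (j + 1) / L j) * (L j * R (j + 1) s ^ 2)) ha ?_ ?_ ?_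
  rotate_left
  · apply ContinuousOn.add
    · exact (((h.cR n).pow 2).mono hsub).add (continuousOn_const.mul continuousOn_id)
    · refine continuousOn_const.mul (continuousOn_finsetSum _ fun j _ => ?_)
      exact continuousOn_const.mul ((Pr_cont (hcj j)).mono hsub)
  · intro s hs
    refine HasDerivAt.fun_add (HasDerivAt.fun_add (hD s (hsubo s hs)).1
      ((hasDerivAt_id s).const_mul K)) ?_
    refine HasDerivAt.const_mul 2 ?_
    exact HasDerivAt.fun_sum fun j _ => (Pr_deriv (hcj j) (hsubo s hs)).const_mul _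
  · intro s hs
    have hs' : s ∈ Ico 0 T := hsub s (Ioo_subset_Icc_self hs)
    have h1 := (abs_le.1 (hD s (hsubo s hs)).2).1
    have h2 := hK s hs'
    have hRn := R2 h n hs'
    have hRn1 := Rle1 h n hs'
    have hRn0 := h.R0 n s hs'
    have hxn := (xle h n hs').trans hRn1
    have e1 : ∑ j ∈ Finset.Ico n N, (ℓ (j + 1) / L j) * (L j * R (j + 1) s ^ 2) =
        ∑ i ∈ Finset.Ico (n + 1) (N + 1), ℓ i * R i s ^ 2 := by
      rw [← Finset.sum_Ico_add' (fun i => ℓ i * R i s ^ 2) n N 1]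
      refine Finset.sum_congr rfl fun j _ => ?_
      have := (hL j).ne'
      field_simp
    have e2 : ∑ i ∈ Finset.Ico n (N + 1), ℓ i * x i s ^ 2 =
        ℓ n * x n s ^ 2 + ∑ i ∈ Finset.Ico (n + 1) (N + 1), ℓ i * x i s ^ 2 :=
      Finset.sum_eq_sum_Ico_succ_bot (by omega) _
    have h3 : ∑ i ∈ Finset.Ico (n + 1) (N + 1), ℓ i * x i s ^ 2 ≤
        ∑ i ∈ Finset.Ico (n + 1) (N + 1), ℓ i * R i s ^ 2 :=
      Finset.sum_le_sum fun i _ => mul_le_mul_of_nonneg_left (x2 h i hs') (h.sq.ℓ_nonneg i)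
    have h4 : ℓ n * x n s ^ 2 ≤ ℓ n := by
      have := (x2 h n hs').trans hRn
      nlinarith [h.sq.ℓ_nonneg n]
    have h5 : -|Sg L x n s| ≤ Sg L x n s * R n s ^ 2 := by
      have h6 := neg_abs_le (Sg L x n s * R n s ^ 2)
      rw [abs_mul, abs_of_nonneg (sq_nonneg (R n s))] at h6
      have h7 : |Sg L x n s| * R n s ^ 2 ≤ |Sg L x n s| * 1 :=
        mul_le_mul_of_nonneg_left hRn (abs_nonneg _)
      linarith
    have h6 : -|src L C x n s| ≤ src L C x n s * x n s := by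
      have h6 := neg_abs_le (src L C x n s * x n s)
      rw [abs_mul] at h6
      have h7 : |src L C x n s| * |x n s| ≤ |src L C x n s| * 1 :=
        mul_le_mul_of_nonneg_left hxn (abs_nonneg _)
      linarith
    have he0 : 0 < e0 lm := by unfold e0; positivity
    have hph : 0 < ph lm n := Real.exp_pos _
    have h7 : 2 * e0 lm * R n s ^ 2 ≤ 2 * e0 lm := by nlinarith
    have h8 : 4 * ph lm n * R n s ≤ 4 * ph lm n := by nlinarith
    rw [e1]
    rw [e2] at h1
    linarith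
  -- conclusion
  have hsum : 2 * ∑ j ∈ Finset.Ico n N, (ℓ (j + 1) / L j) *
      Pr (fun s => L j * R (j + 1) s ^ 2) t - 2 * ∑ j ∈ Finset.Ico n N, (ℓ (j + 1) / L j) *
      Pr (fun s => L j * R (j + 1) s ^ 2) a ≤ dl η (n + 1) ^ 2 / 200 := by
    rw [← mul_sub, ← Finset.sum_sub_distrib]
    have h1 : ∀ j ∈ Finset.Ico n N, (ℓ (j + 1) / L j) * Pr (fun s => L j * R (j + 1) s ^ 2) t -
        (ℓ (j + 1) / L j) * Pr (fun s => L j * R (j + 1) s ^ 2) a ≤
        dl η (j + 1) ^ 4 / 10 ^ 4 := by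
      intro j hj
      rw [Finset.mem_Ico] at hj
      have h2 := hPr j hj.1 (by omega)
      have h3 : 0 ≤ Pr (fun s => L j * R (j + 1) s ^ 2) a := by
        have := Pr_mono (hcj j) (a := 0) (b := a) ⟨le_rfl, h.hT⟩
          ⟨ha0, ha.trans_lt ht.2⟩ ha0 (fun s _ => by have := (hL j).le; positivity)
        rwa [Pr_zero] at this
      have h4 : ℓ (j + 1) / L j ≤ dl η (j + 1) ^ 4 / 10 ^ 6 := by
        rw [div_le_div_iff₀ (hL j) (by norm_num)]
        linarith [h.sq.ℓ_succ j]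
      have h5 : 0 ≤ ℓ (j + 1) / L j := div_nonneg (h.sq.ℓ_nonneg _) (hL j).le
      have h6 : 0 ≤ dl η (j + 1) ^ 4 := pow_nonneg (h.nm.d0 _).le _
      nlinarith
    have h2 := Finset.sum_le_sum h1
    rw [← Finset.sum_div] at h2
    have h3 := dsum h.nm n N (by omega)
    have h4 : 0 ≤ dl η (N + 1) ^ 4 := pow_nonneg (h.nm.d0 _).le _
    have h5 : dl η (n + 1) ^ 4 ≤ dl η (n + 1) ^ 2 / 10 ^ 4 := by
      have h6 : dl η (n + 1) ^ 2 ≤ 1 / 10 ^ 4 := by
        have := h.nm.d1 (n + 1)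
        have := h.nm.d0 (n + 1)
        nlinarith
      have h7 : 0 ≤ dl η (n + 1) ^ 2 := sq_nonneg _
      nlinarith
    have h6 : (∑ j ∈ Finset.Ico n N, dl η (j + 1) ^ 4) / 10 ^ 4 ≤
        dl η (n + 1) ^ 2 / 10 ^ 4 / 10 ^ 3 := by
      have h7 : 0 ≤ dl η (n + 1) ^ 2 := sq_nonneg _
      rw [div_le_iff₀ (by norm_num)]
      linarith
    have h7 : 0 ≤ dl η (n + 1) ^ 2 := sq_nonneg _
    linarith
  have hKt : K * t - K * a ≤ dl η (n + 1) ^ 2 / 200 := by
    rw [← mul_sub]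
    exact (mul_le_mul_of_nonneg_left hba hK0).trans hKw
  linarith

end Pool.Agent.Y907.LN
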